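import Pool.Agent.Helper16.SYM.Defs
import Pool.Agent.Helper85.SYM.A2

/-!
# Project SYM: piece A3 (from the residue field to the local ring by Nakayama)
-/

set_option autoImplicit false

namespace Pool.Agent.Helper87.SYM

open Polynomial IsLocalRing
open Pool.Agent.Helper16.SYM

/-- A polynomial `f` of degree less than `n` whose multiples `X ^ i * f`, `i < m`, have vanishing
top residue modulo the monic polynomial `V` of degree `n` has degree less than `n - m`. -/
theorem coeff_eq_zero_of_res {R : Type*} [CommRing R] [Nontrivial R] {V f : R[X]} (hV : V.Monic)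
    {n m : ℕ} (hn : V.degree = n) (hf : f.degree < n)
    (h : ∀ i < m, ((X ^ i * f) %ₘ V).coeff (n - 1) = 0) :
    ∀ i, n ≤ i + m → f.coeff i = 0 := by
  have key : ∀ i, i < m → i < n → f.coeff (n - 1 - i) = 0 := by
    intro i
    induction i using Nat.strong_induction_on with
    | _ i ih =>
      intro him hin
      have hdeg : (X ^ i * f).degree < V.degree := by
        rw [hn, degree_lt_iff_coeff_zero]
        intro j hj
        rw [coeff_X_pow_mul']
        split_ifs with hij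
        · by_cases hjn : n ≤ j - i
          · exact coeff_eq_zero_of_degree_lt (lt_of_lt_of_le hf (by exact_mod_cast hjn))
          · have := ih (n - 1 - (j - i)) (by omega) (by omega) (by omega)
            rwa [show n - 1 - (n - 1 - (j - i)) = j - i by omega] at this
        · rfl
      have h1 := h i him
      rw [(modByMonic_eq_self_iff hV).2 hdeg, coeff_X_pow_mul', if_pos (by omega)] at h1
      exact h1
  intro i hi
  by_cases hin : n ≤ i
  · exact coeff_eq_zero_of_degree_lt (lt_of_lt_of_le hf (by exact_mod_cast hin))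
  · have := key (n - 1 - i) (by omega) (by omega)
    rwa [show n - 1 - (n - 1 - i) = i by omega] at this

theorem quo_map {R S : Type*} [CommRing R] [CommRing S] (f : R →+* S) (G : R[X][X]) (Y : R[X]) :
    (quo G Y).map (mapRingHom f) = quo (G.map (mapRingHom f)) (Y.map f) := by
  rw [quo, quo, map_divByMonic _ (monic_X_sub_C Y)]
  simp

theorem eval_map_res {R S : Type*} [CommRing R] [CommRing S] (f : R →+* S) (G : R[X][X])
    (Y : R[X]) : (G.map (mapRingHom f)).eval (Y.map f) = (G.eval Y).map f := by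
  rw [eval_map, ← coe_mapRingHom, eval₂_at_apply]

theorem mem_smul_top {R : Type*} [CommRing R] {ι : Type*} [Fintype ι] [DecidableEq ι]
    (I : Ideal R) (v : ι → R) (hv : ∀ i, v i ∈ I) : v ∈ I • (⊤ : Submodule R (ι → R)) := by
  rw [pi_eq_sum_univ' v]
  exact Submodule.sum_mem _ fun i _ => Submodule.smul_mem_smul (hv i) trivial

/-- A3, with A2 (over the residue field) as a hypothesis. -/
theorem exists_s_of {R : Type*} [CommRing R] [IsLocalRing R] {G : R[X][X]} {e : ℕ} {U₀ Y₀ : R[X]}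
    (A2 : ∀ {G : (ResidueField R)[X][X]} (_ : G.Monic) (_ : 0 < G.natDegree)
      {e : ℕ} (_ : Wt G e) {U Y Y₂ : (ResidueField R)[X]} (_ : U.Monic) (_ : U ∣ Y₂ - Y)
      (_ : IsCoprime ((derivative G).eval Y) U) (_ : Unis G.natDegree e U Y)
      (τ : ℕ → ℕ → ResidueField R) (ξ : (ResidueField R)[X]),
      ∃ s : (ResidueField R)[X], (∀ j < G.natDegree, ∀ i < e * j,
        ((X ^ i * (s * (quo G Y₂).coeff j)) %ₘ (U ^ 2)).coeff (2 * U.natDegree - 1) = τ j i) ∧
      U ∣ (∑ j ∈ Finset.range G.natDegree, ((s * (quo G Y₂).coeff j) %ₘ (U ^ 2)) * Y ^ j) - ξ)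
    (hb : Base G e U₀ Y₀) {V Y : R[X]} (hV : V.Monic)
    (hVr : V.map (residue R) = (U₀.map (residue R)) ^ 2)
    (hYr : U₀.map (residue R) ∣ (Y - Y₀).map (residue R)) (ξ : R[X]) :
    ∃ s : R[X], (∀ j < G.natDegree, ∀ i, 2 * U₀.natDegree ≤ i + e * j →
        ((s * (quo G Y).coeff j) %ₘ V).coeff i = 0) ∧
      U₀ ∣ (∑ j ∈ Finset.range G.natDegree, ((s * (quo G Y).coeff j) %ₘ V) * Y₀ ^ j) - ξ := by
  classical
  set r := G.natDegree with hr
  set N := U₀.natDegree with hN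
  set ρ := residue R with hρ
  have hU₀ := hb.monicU
  have hVdeg : V.natDegree = 2 * N := by
    rw [← hV.natDegree_map ρ, hVr, (hU₀.map ρ).natDegree_pow, hU₀.natDegree_map]
  have hVdeg' : V.degree = ((2 * N : ℕ) : WithBot ℕ) := by
    rw [degree_eq_natDegree hV.ne_zero, hVdeg]
  -- the linear map
  let L1 : ℕ → ℕ → (R[X] →ₗ[R] R) := fun j i =>
    (lcoeff R (2 * N - 1)) ∘ₗ (modByMonicHom V) ∘ₗ (LinearMap.mulLeft R (X ^ i)) ∘ₗ
      (LinearMap.mulRight R ((quo G Y).coeff j))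
  have hL1 : ∀ j i s, L1 j i s = ((X ^ i * (s * (quo G Y).coeff j)) %ₘ V).coeff (2 * N - 1) :=
    fun j i s => rfl
  let L0 : R[X] →ₗ[R] R[X] := ∑ j ∈ Finset.range r, (LinearMap.mulRight R (Y₀ ^ j)) ∘ₗ
      (modByMonicHom V) ∘ₗ (LinearMap.mulRight R ((quo G Y).coeff j))
  have hL0 : ∀ s, L0 s = ∑ j ∈ Finset.range r, ((s * (quo G Y).coeff j) %ₘ V) * Y₀ ^ j := by
    intro s
    simp only [L0, LinearMap.sum_apply]
    rfl
  let L2 : ℕ → (R[X] →ₗ[R] R) := fun l => (lcoeff R l) ∘ₗ (modByMonicHom U₀) ∘ₗ L0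
  have hL2 : ∀ l s, L2 l s =
      ((∑ j ∈ Finset.range r, ((s * (quo G Y).coeff j) %ₘ V) * Y₀ ^ j) %ₘ U₀).coeff l := by
    intro l s
    rw [← hL0]
    rfl
  let Λ : R[X] →ₗ[R] (((Σ j : Fin r, Fin (e * j)) ⊕ Fin N) → R) :=
    LinearMap.pi (fun x => Sum.elim (fun y : (Σ j : Fin r, Fin (e * j)) => L1 y.1 y.2)
      (fun l : Fin N => L2 l) x)
  have hΛ1 : ∀ s (y : Σ j : Fin r, Fin (e * j)), Λ s (Sum.inl y) = L1 y.1 y.2 s := fun s y => rfl
  have hΛ2 : ∀ s (l : Fin N), Λ s (Sum.inr l) = L2 l s := fun s l => rfl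
  -- surjectivity modulo the maximal ideal
  have hmod : ∀ v : ((Σ j : Fin r, Fin (e * j)) ⊕ Fin N) → R, ∃ s : R[X],
      ∀ x, v x - Λ s x ∈ maximalIdeal R := by
    intro v
    have hGm : (G.map (mapRingHom ρ)).Monic := hb.monic.map _
    have hGd : (G.map (mapRingHom ρ)).natDegree = r := hb.monic.natDegree_map _
    have hwt : Wt (G.map (mapRingHom ρ)) e := by
      intro l
      rw [hGd, coeff_map, coe_mapRingHom]
      exact natDegree_map_le.trans (hb.wt l)
    obtain ⟨s', hs1, hs2⟩ := A2 hGm (by rw [hGd]; exact hb.pos) hwt (hU₀.map ρ)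
      (Y := Y₀.map ρ) (Y₂ := Y.map ρ) (by rw [← Polynomial.map_sub]; exact hYr)
      (by
        have h := hb.unram
        rw [← hρ] at h
        rwa [derivative_map, eval_map_res])
      (by rw [hGd]; exact hb.unis)
      (fun j i => if h : j < r ∧ i < e * j then ρ (v (Sum.inl ⟨⟨j, h.1⟩, ⟨i, h.2⟩⟩)) else 0)
      (∑ l : Fin N, C (ρ (v (Sum.inr l))) * X ^ (l : ℕ))
    obtain ⟨s, hs⟩ := map_surjective ρ residue_surjective s'
    subst hs
    rw [hGd] at hs1 hs2
    have hUd : (U₀.map ρ).natDegree = N := hU₀.natDegree_map ρ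
    rw [hUd] at hs1
    rw [← hVr] at hs1 hs2
    have hc : ∀ j, (quo (G.map (mapRingHom ρ)) (Y.map ρ)).coeff j =
        ((quo G Y).coeff j).map ρ := by
      intro j
      rw [← quo_map, coeff_map, coe_mapRingHom]
    refine ⟨s, ?_⟩
    rintro (⟨⟨j, hj⟩, ⟨i, hi⟩⟩ | l)
    · have h1 := hs1 j hj i hi
      rw [dif_pos ⟨hj, hi⟩, hc, ← Polynomial.map_mul, ← map_X ρ, ← Polynomial.map_pow,
        ← Polynomial.map_mul, ← map_modByMonic _ hV, coeff_map] at h1
      rw [← residue_eq_zero_iff, ← hρ, map_sub, sub_eq_zero, hΛ1, hL1]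
      exact h1.symm
    · have h2 : (∑ j ∈ Finset.range r, ((s * (quo G Y).coeff j) %ₘ V) * Y₀ ^ j).map ρ =
          ∑ j ∈ Finset.range r, ((s.map ρ * (quo (G.map (mapRingHom ρ)) (Y.map ρ)).coeff j) %ₘ
            (V.map ρ)) * (Y₀.map ρ) ^ j := by
        rw [Polynomial.map_sum]
        refine Finset.sum_congr rfl fun j _ => ?_
        rw [hc, Polynomial.map_mul, Polynomial.map_pow, map_modByMonic _ hV, Polynomial.map_mul]
      rw [← h2] at hs2
      have h3 := modByMonic_eq_of_dvd_sub (hU₀.map ρ) hs2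
      rw [← map_modByMonic _ hU₀] at h3
      have h4 : ((∑ l : Fin N, C (ρ (v (Sum.inr l))) * X ^ (l : ℕ)) : (ResidueField R)[X]) %ₘ
          (U₀.map ρ) = ∑ l : Fin N, C (ρ (v (Sum.inr l))) * X ^ (l : ℕ) := by
        rw [modByMonic_eq_self_iff (hU₀.map ρ), degree_eq_natDegree (hU₀.map ρ).ne_zero, hUd]
        refine (degree_sum_le _ _).trans_lt ?_
        rw [Finset.sup_lt_iff (WithBot.bot_lt_coe _)]
        intro l _
        exact (degree_C_mul_X_pow_le _ _).trans_lt (by exact_mod_cast l.2)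
      have h5 := congrArg (fun f => f.coeff (l : ℕ)) (h3.trans h4)
      simp only [coeff_map, finsetSum_coeff, coeff_C_mul, coeff_X_pow] at h5
      rw [← residue_eq_zero_iff, ← hρ, map_sub, sub_eq_zero, hΛ2, hL2]
      rw [Finset.sum_eq_single l] at h5
      · rw [if_pos rfl, mul_one] at h5
        exact h5.symm
      · intro b _ hb
        rw [if_neg (fun h => hb (Fin.ext h.symm)), mul_zero]
      · simp
  -- Nakayama
  have htop : LinearMap.range Λ = ⊤ := by
    refine top_le_iff.mp (Submodule.le_of_le_smul_of_le_jacobson_bot (I := maximalIdeal R)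
      Module.Finite.fg_top (maximalIdeal_le_jacobson _) ?_)
    intro v _
    obtain ⟨s, hs⟩ := hmod v
    rw [Submodule.mem_sup]
    refine ⟨Λ s, ⟨s, rfl⟩, v - Λ s, mem_smul_top _ _ hs, ?_⟩
    abel
  obtain ⟨s, hs⟩ : ∃ s, Λ s = Sum.elim (fun _ => 0) (fun l : Fin N => (ξ %ₘ U₀).coeff (l : ℕ)) := by
    have : Sum.elim (fun _ => 0) (fun l : Fin N => (ξ %ₘ U₀).coeff (l : ℕ)) ∈
        LinearMap.range Λ := by rw [htop]; trivial
    exact this
  refine ⟨s, ?_, ?_⟩
  · intro j hj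
    have h1 : ((s * (quo G Y).coeff j) %ₘ V).degree < ((2 * N : ℕ) : WithBot ℕ) := by
      rw [← hVdeg']
      exact degree_modByMonic_lt _ hV
    refine coeff_eq_zero_of_res hV hVdeg' h1 ?_
    intro i hi
    have h2 := congrFun hs (Sum.inl ⟨⟨j, hj⟩, ⟨i, hi⟩⟩)
    rw [hΛ1, hL1, Sum.elim_inl] at h2
    rw [← h2]
    congr 1
    refine modByMonic_eq_of_dvd_sub hV ?_
    rw [← mul_sub]
    refine Dvd.dvd.mul_left ?_ _
    rw [← dvd_neg, neg_sub]
    exact ⟨_, sub_eq_iff_eq_add'.mpr (modByMonic_add_div (s * (quo G Y).coeff j) V).symm⟩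
  · have h1 : (∑ j ∈ Finset.range r, ((s * (quo G Y).coeff j) %ₘ V) * Y₀ ^ j) %ₘ U₀ = ξ %ₘ U₀ := by
      ext l
      by_cases hl : l < N
      · have h2 := congrFun hs (Sum.inr ⟨l, hl⟩)
        rw [hΛ2, hL2, Sum.elim_inr] at h2
        exact h2
      · rw [coeff_eq_zero_of_degree_lt, coeff_eq_zero_of_degree_lt]
        · refine (degree_modByMonic_lt _ hU₀).trans_le ?_
          rw [degree_eq_natDegree hU₀.ne_zero]
          exact_mod_cast not_lt.mp hl
        · refine (degree_modByMonic_lt _ hU₀).trans_le ?_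
          rw [degree_eq_natDegree hU₀.ne_zero]
          exact_mod_cast not_lt.mp hl
    rw [← modByMonic_eq_zero_iff_dvd hU₀, sub_modByMonic, h1, sub_self]

/-- A3 -/
theorem exists_s {R : Type*} [CommRing R] [IsLocalRing R] {G : R[X][X]} {e : ℕ} {U₀ Y₀ : R[X]}
    (hb : Base G e U₀ Y₀) {V Y : R[X]} (hV : V.Monic)
    (hVr : V.map (residue R) = (U₀.map (residue R)) ^ 2)
    (hYr : U₀.map (residue R) ∣ (Y - Y₀).map (residue R)) (ξ : R[X]) :
    ∃ s : R[X], (∀ j < G.natDegree, ∀ i, 2 * U₀.natDegree ≤ i + e * j →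
        ((s * (quo G Y).coeff j) %ₘ V).coeff i = 0) ∧
      U₀ ∣ (∑ j ∈ Finset.range G.natDegree, ((s * (quo G Y).coeff j) %ₘ V) * Y₀ ^ j) - ξ :=
  exists_s_of (fun {_} h1 h2 {_} h3 {_ _ _} h4 h5 h6 h7 τ ξ =>
    Pool.Agent.Helper85.SYMA2.field_surj h1 h2 h3 h4 h5 h6 h7 τ ξ) hb hV hVr hYr ξ

end Pool.Agent.Helper87.SYM
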